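import Pool.Agent.J6H59.AD.D5

/-!
# Lagrangians which are mechanical near infinity
-/

set_option autoImplicit false

open Filter Topology Set
open scoped ContDiff

noncomputable section

namespace Pool.Agent.J6H59.AD

open Pool.Agent.N980.TL Pool.Agent.J6H70.AD

/-- `L(x,v,t) = |v|²/2 + U(x,t)` for all `v` with `‖v‖` large -/
def MechanicalNearInfinity {n : ℕ} (U : (Fin n → ℝ) → ℝ → ℝ) (L : (Fin n → ℝ) → (Fin n → ℝ) → ℝ → ℝ) : Prop :=
  ∃ R : ℝ, ∀ x v t, R ≤ ‖v‖ → L x v t = (∑ i, v i ^ 2) / 2 + U x t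

theorem Pot.add' {n : ℕ} {f g : (Fin n → ℝ) → ℝ → ℝ} (hf : Pot f) (hg : Pot g) :
    Pot (fun x t => f x t + g x t) :=
  ⟨hf.1.add hg.1, fun x t k l => by
    have e1 := hf.2 x t k l
    have e2 := hg.2 x t k l
    show f (fun i => x i + k i) (t + l) + g (fun i => x i + k i) (t + l) = _
    rw [e1, e2]⟩

theorem Pot.sub' {n : ℕ} {f g : (Fin n → ℝ) → ℝ → ℝ} (hf : Pot f) (hg : Pot g) :
    Pot (fun x t => f x t - g x t) :=
  ⟨hf.1.sub hg.1, fun x t k l => by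
    have e1 := hf.2 x t k l
    have e2 := hg.2 x t k l
    show f (fun i => x i + k i) (t + l) - g (fun i => x i + k i) (t + l) = _
    rw [e1, e2]⟩

theorem gr_periodic {n : ℕ} {f : (Fin n → ℝ) → ℝ → ℝ} (hf : Pot f) (x : Fin n → ℝ) (t : ℝ) (T : ℕ) :
    gr f x (t + T) = gr f x t := by
  funext i
  have h1 := gr_hasDerivAt hf.1 x (t + T) i
  have h2 := gr_hasDerivAt hf.1 x t i
  have e : (fun u => f (Function.update x i u) (t + T)) = fun u => f (Function.update x i u) t := by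
    funext u
    have := hf.2 (Function.update x i u) t 0 (T : ℤ)
    simpa using this
  rw [e] at h1
  exact h1.unique h2

theorem close_sub {n : ℕ} {ε : ℝ} {f g U : (Fin n → ℝ) → ℝ → ℝ}
    (h : Close ε (fun x t => f x t + U x t) g) : Close ε f (fun x t => g x t - U x t) := by
  intro i hi q
  have := h i hi q
  have e : (fun q : (Fin n → ℝ) × ℝ => g q.1 q.2 - U q.1 q.2 - f q.1 q.2) =
      fun q : (Fin n → ℝ) × ℝ => g q.1 q.2 - (f q.1 q.2 + U q.1 q.2) := by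
    funext q; ring
  show ‖iteratedFDeriv ℝ i (fun q : (Fin n → ℝ) × ℝ => g q.1 q.2 - U q.1 q.2 - f q.1 q.2) q‖ ≤ ε
  rw [e]
  exact this

/-- all Lagrangians which are mechanical near infinity at once -/
theorem dense6 (h5 : S_MAIN5) (r : ℕ) (U f₀ : (Fin (r + 2) → ℝ) → ℝ → ℝ) (hU : Pot U) (hf₀ : Pot f₀)
    (ε : ℝ) (hε : 0 < ε) :
    ∃ f : (Fin (r + 2) → ℝ) → ℝ → ℝ, Pot f ∧ Close ε f₀ f ∧
      ∀ L : (Fin (r + 2) → ℝ) → (Fin (r + 2) → ℝ) → ℝ → ℝ, MechanicalNearInfinity U L →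
        ∃ γ : ℝ → Fin (r + 2) → ℝ, (∃ c > 0, ∀ t, 0 ≤ t → c * t ^ (1 / 25 : ℝ) ≤ ‖deriv γ t‖) ∧
          ∀ t, 0 < t → EulerLagrange (fun x v t => L x v t + f x t) γ t := by
  have hUf := Pot.add' hf₀ hU
  obtain ⟨g, γ, g1, g2, g3, ⟨c, hc, g4⟩, -, g5⟩ := dense5 h5 r _ hUf.1 hUf.2 ε hε 0
  have hg : Pot g := ⟨g1, g2⟩
  refine ⟨fun x t => g x t - U x t, Pot.sub' hg hU, close_sub g3, fun L hL => ?_⟩
  obtain ⟨R, hR⟩ := hL
  have hE : ∀ t, 0 < t → HasDerivAt γ (deriv γ t) t ∧ HasDerivAt (deriv γ) (gr g (γ t) t) t := fun t ht =>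
    (el_all (r + 2) g hg.1).1 γ t (g5 (fun _ v _ => (∑ i, v i ^ 2) / 2) (fun _ _ _ _ => rfl) t ht)
  have ht : Tendsto (fun t : ℝ => c * t ^ (1 / 25 : ℝ)) atTop atTop :=
    (tendsto_rpow_atTop (by norm_num)).const_mul_atTop hc
  obtain ⟨T, hT⟩ := ((ht.comp tendsto_natCast_atTop_atTop).eventually_gt_atTop R).exists
  have hT' : R < c * (T : ℝ) ^ (1 / 25 : ℝ) := hT
  have hder : ∀ t, deriv (fun s => γ (s + T)) t = deriv γ (t + T) := fun t =>
    deriv_comp_add_const (f := γ) (T : ℝ) t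
  have hT0 : (0 : ℝ) ≤ T := by positivity
  refine ⟨fun t => γ (t + T), ⟨c, hc, fun t ht => ?_⟩, fun t ht => ?_⟩
  · rw [hder]
    refine le_trans ?_ (g4 (t + T) (by positivity))
    exact mul_le_mul_of_nonneg_left (Real.rpow_le_rpow ht (by linarith) (by norm_num)) hc.le
  · have hfast : ∀ s : ℝ, 0 ≤ s → R < ‖deriv (fun s => γ (s + T)) s‖ := by
      intro s hs
      rw [hder]
      refine lt_of_lt_of_le hT' (le_trans ?_ (g4 (s + T) (by positivity)))
      exact mul_le_mul_of_nonneg_left (Real.rpow_le_rpow hT0 (by linarith) (by norm_num)) hc.le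
    obtain ⟨d1, d2⟩ := hE (t + T) (by positivity)
    have k1 : HasDerivAt (fun t => γ (t + T)) (deriv γ (t + T)) t := d1.comp_add_const t (T : ℝ)
    have e : (deriv fun t => γ (t + T)) = fun t => deriv γ (t + T) := funext hder
    have k2 : HasDerivAt (deriv fun t => γ (t + T)) (gr g (γ (t + T)) t) t := by
      rw [e, ← gr_periodic hg (γ (t + T)) t T]
      exact d2.comp_add_const t (T : ℝ)
    have key := el_fast (L := fun x v t => L x v t - U x t) (f := g) (γ := fun t => γ (t + T)) (t := t)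
      (a := gr g (γ (t + T)) t) (Vmin := R) (by
        intro x v t hv
        rw [hR x v t hv]; ring) (by
        filter_upwards [lt_mem_nhds ht] with s hs
        exact hfast s (le_of_lt hs)) k1.differentiableAt k2
      (fun i => gr_hasDerivAt hg.1 (γ (t + T)) t i)
    have e2 : (fun (x v : Fin (r + 2) → ℝ) (t : ℝ) => L x v t + (g x t - U x t)) =
        fun x v t => L x v t - U x t + g x t := by
      funext x v t; ring
    rw [e2]
    exact key

theorem growth6 (h5 : S_MAIN5) (hBL : S_BL) (hEX : S_EX) (hGR : S_GR) (r : ℕ)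
    (U : (Fin (r + 2) → ℝ) → ℝ → ℝ) (hU : Pot U) (φ : ℝ → ℝ) :
    ∃ O : ℕ → Set ((Fin (r + 2) → ℝ) → ℝ → ℝ), (∀ m, OpenDense (O m)) ∧
      ∀ f, (∀ m, f ∈ O m) →
        ∀ L : (Fin (r + 2) → ℝ) → (Fin (r + 2) → ℝ) → ℝ → ℝ, MechanicalNearInfinity U L →
        ∀ K : ℝ, ∃ (γ : ℝ → Fin (r + 2) → ℝ) (t0 t1 : ℝ), t0 < t1 ∧
        (∀ t ∈ Icc t0 t1, EulerLagrange (fun x v t => L x v t + f x t) γ t) ∧
        (∀ t ∈ Icc t0 t1, K ≤ ‖deriv γ t‖) ∧ φ ‖deriv γ t0‖ < ‖deriv γ t1‖ := by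
  obtain ⟨O, hO, hO2⟩ := growth5 h5 hBL hEX hGR r φ
  refine ⟨fun m => {f | (fun x t => f x t + U x t) ∈ O m}, fun m => ⟨?_, ?_⟩, fun f hf L hL K => ?_⟩
  · intro f hf
    have hf' : (fun x t => f x t + U x t) ∈ O m := hf
    obtain ⟨p1, η, hη, p2⟩ := (hO m).1 _ hf'
    refine ⟨?_, η, hη, fun g hg hfg => ?_⟩
    · have := Pot.sub' p1 hU
      simpa using this
    · refine p2 _ (Pot.add' hg hU) ?_
      intro i hi q
      have h1 := hfg i hi q
      have e : (fun q : (Fin (r + 2) → ℝ) × ℝ => g q.1 q.2 + U q.1 q.2 - (f q.1 q.2 + U q.1 q.2)) =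
          fun q : (Fin (r + 2) → ℝ) × ℝ => g q.1 q.2 - f q.1 q.2 := by
        funext q; ring
      show ‖iteratedFDeriv ℝ i
        (fun q : (Fin (r + 2) → ℝ) × ℝ => g q.1 q.2 + U q.1 q.2 - (f q.1 q.2 + U q.1 q.2)) q‖ ≤ η
      rw [e]
      exact h1
  · intro f hf ε hε
    obtain ⟨g, hg, hgf⟩ := (hO m).2 _ (Pot.add' hf hU) ε hε
    refine ⟨fun x t => g x t - U x t, ?_, close_sub hgf⟩
    show (fun x t => g x t - U x t + U x t) ∈ O m
    have e : (fun (x : Fin (r + 2) → ℝ) (t : ℝ) => g x t - U x t + U x t) = g := by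
      funext x t; ring
    rw [e]
    exact hg
  · obtain ⟨R, hR⟩ := hL
    obtain ⟨γ, t0, t1, h1, h2, h3, h4⟩ := hO2 _ hf (max K R)
    refine ⟨γ, t0, t1, h1, fun t ht => ?_, fun t ht => (le_max_left _ _).trans (h3 t ht), h4⟩
    have key := h2 (fun x v t => L x v t - U x t) (by
      intro x v t hv
      rw [hR x v t ((le_max_right _ _).trans hv)]; ring) t ht
    have e2 : (fun (x v : Fin (r + 2) → ℝ) (t : ℝ) => L x v t - U x t + (f x t + U x t)) =
        fun x v t => L x v t + f x t := by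
      funext x v t; ring
    rw [e2] at key
    exact key

end Pool.Agent.J6H59.AD
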