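import Pool.Agent.J6H59.AD.M5a
import Pool.Agent.N980.TL.Main4

/-!
# From trigonometric polynomials to all potentials: density, generic velocity growth
-/

set_option autoImplicit false

open Filter Topology Set
open scoped ContDiff

noncomputable section

namespace Pool.Agent.J6H59.AD

open Pool.Agent.N980.TL Pool.Agent.J6H70.AD

theorem dense5 (h5 : S_MAIN5) (r : ℕ) (f₀ : (Fin (r + 2) → ℝ) → ℝ → ℝ)
    (hf₀ : ContDiff ℝ 2 (fun q : (Fin (r + 2) → ℝ) × ℝ => f₀ q.1 q.2)) (hper : Periodic f₀)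
    (ε : ℝ) (hε : 0 < ε) (R : ℝ) :
    ∃ (f : (Fin (r + 2) → ℝ) → ℝ → ℝ) (γ : ℝ → Fin (r + 2) → ℝ),
      ContDiff ℝ 2 (fun q : (Fin (r + 2) → ℝ) × ℝ => f q.1 q.2) ∧ Periodic f ∧
      (∀ i ≤ 2, ∀ q, ‖iteratedFDeriv ℝ i
        (fun q : (Fin (r + 2) → ℝ) × ℝ => f q.1 q.2 - f₀ q.1 q.2) q‖ ≤ ε) ∧
      (∃ c > 0, ∀ t, 0 ≤ t → c * t ^ (1 / 25 : ℝ) ≤ ‖deriv γ t‖) ∧ (∀ t, 0 ≤ t → R < ‖deriv γ t‖) ∧
      ∀ L : (Fin (r + 2) → ℝ) → (Fin (r + 2) → ℝ) → ℝ → ℝ,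
        (∀ x v t, R ≤ ‖v‖ → L x v t = (∑ i, v i ^ 2) / 2) →
        ∀ t, 0 < t → EulerLagrange (fun x v t => L x v t + f x t) γ t := by
  obtain ⟨N, D, hD⟩ := dens_all (r + 2) (fun q => f₀ q.1 q.2) hf₀
    (fun x t k l => hper x t k l) (ε / 2) (half_pos hε)
  obtain ⟨F, γ, h1, h2, h3, h4, h4', h5⟩ := h5 r N D (ε / 2) (half_pos hε) R
  have hDs : ContDiff ℝ 2 (fun q : Z (r + 2) => D.val q.1 q.2) := (contDiff_infty.1 (val_smooth D)) 2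
  refine ⟨fun x t => D.val x t + F (x, t), γ, hDs.add h1, ?_, ?_, h4, h4', h5⟩
  · intro x t k l
    have e1 := val_periodic D x t k l
    have e2 := h2 x t k l
    simp only at e2
    show D.val (fun i => x i + k i) (t + l) + F ((fun i => x i + k i), t + l) = D.val x t + F (x, t)
    rw [e1, e2]
  · intro i hi q
    have hi' : (i : WithTop ℕ∞) ≤ 2 := by exact_mod_cast hi
    have e : (fun q : (Fin (r + 2) → ℝ) × ℝ => D.val q.1 q.2 + F (q.1, q.2) - f₀ q.1 q.2) =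
        F - fun q : Z (r + 2) => f₀ q.1 q.2 - D.val q.1 q.2 := by
      funext q
      show D.val q.1 q.2 + F (q.1, q.2) - f₀ q.1 q.2 = F q - (f₀ q.1 q.2 - D.val q.1 q.2)
      ring
    show ‖iteratedFDeriv ℝ i (fun q : (Fin (r + 2) → ℝ) × ℝ => D.val q.1 q.2 + F (q.1, q.2) - f₀ q.1 q.2) q‖ ≤ ε
    have hn : ContDiff ℝ 2 (-fun q : Z (r + 2) => f₀ q.1 q.2 - D.val q.1 q.2) := (hf₀.sub hDs).neg
    rw [e, sub_eq_add_neg, iteratedFDeriv_add_apply (h1.of_le hi').contDiffAt (hn.of_le hi').contDiffAt,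
      iteratedFDeriv_neg_apply]
    refine (norm_add_le _ _).trans ?_
    rw [norm_neg]
    linarith [h3 i hi q, hD i hi q]

theorem openDense5 (h5 : S_MAIN5) (hBL : S_BL) (hEX : S_EX) (hGR : S_GR) (r : ℕ) (φ : ℝ → ℝ) (m : ℕ) :
    OpenDense (Gs r φ m) := by
  constructor
  · rintro f ⟨hf, γ, t0, t1, h01, hE, ⟨μ0, hμ0, hm⟩, hφ⟩
    refine ⟨hf, ?_⟩
    obtain ⟨B, L, hB, hL, b1, b2, b3⟩ := hBL (r + 2) f hf.1 hf.2
    set μ : ℝ := min μ0 (‖deriv γ t1‖ - φ ‖deriv γ t0‖) with hμ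
    have hμp : 0 < μ := lt_min hμ0 (by linarith)
    have hμ1 : μ ≤ μ0 := min_le_left _ _
    have hμ2 : μ ≤ ‖deriv γ t1‖ - φ ‖deriv γ t0‖ := min_le_right _ _
    set X : ℝ := Real.exp ((L + 1) * (t1 - t0)) with hX
    have hX0 : 0 < X := Real.exp_pos _
    refine ⟨μ / (2 * X), by positivity, fun g hg hfg => ⟨hg, ?_⟩⟩
    obtain ⟨B', L', hB', hL', b1', b2', b3'⟩ := hBL (r + 2) g hg.1 hg.2
    obtain ⟨x, v, hx0, hv0, hxv⟩ := hEX (r + 2) (gr g) B' L' hB' hL' b3' b1' b2' t0 t1 (γ t0) (deriv γ t0) h01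
    have hη0 : (0 : ℝ) ≤ μ / (2 * X) := by positivity
    have hIcc : ∀ t ∈ Icc t0 t1, t ∈ Ioo (t0 - 1) (t1 + 1) := fun t ht => ⟨by linarith [ht.1], by linarith [ht.2]⟩
    have hdist : ∀ t ∈ Icc t0 t1, ‖deriv γ t - v t‖ ≤ μ / 2 := by
      intro t ht
      rcases ht.1.eq_or_lt with h | h
      · rw [← h, hv0, sub_self, norm_zero]; positivity
      · have h1 := hGR (r + 2) (gr f) (gr g) L (μ / (2 * X)) hL hη0 b2
          (fun x t => gr_sub_le hf hg hη0 hfg x t) t0 t γ (deriv γ) x v h hx0.symm hv0.symm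
          (fun s hs => (el_all (r + 2) f hf.1).1 γ s (hE s ⟨hs.1, hs.2.trans ht.2⟩))
          (fun s hs => hxv s (hIcc s ⟨hs.1, hs.2.trans ht.2⟩))
        have h2 : Real.exp ((L + 1) * (t - t0)) ≤ X := by
          rw [hX]
          refine Real.exp_le_exp.2 (mul_le_mul_of_nonneg_left (by linarith [ht.2]) (by linarith))
        have e : μ / (2 * X) * X = μ / 2 := by field_simp
        rw [← e]
        exact h1.trans (mul_le_mul_of_nonneg_left h2 hη0)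
    have hlow : ∀ t ∈ Icc t0 t1, ‖deriv γ t‖ - μ / 2 ≤ ‖v t‖ := by
      intro t ht
      have h3 : ‖deriv γ t‖ ≤ ‖v t‖ + ‖deriv γ t - v t‖ := by
        have := norm_add_le (v t) (deriv γ t - v t)
        rwa [add_sub_cancel] at this
      linarith [hdist t ht]
    have hdx : ∀ t ∈ Icc t0 t1, deriv x t = v t := fun t ht => (hxv t (hIcc t ht)).1.deriv
    have h0m : t0 ∈ Icc t0 t1 := ⟨le_rfl, h01.le⟩
    have h1m : t1 ∈ Icc t0 t1 := ⟨h01.le, le_rfl⟩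
    refine ⟨x, t0, t1, h01, fun t ht => ?_, ⟨μ / 2, by positivity, fun t ht => ?_⟩, ?_⟩
    · refine (el_all (r + 2) g hg.1).2 x v t ?_ (hxv t (hIcc t ht)).2
      filter_upwards [Ioo_mem_nhds (hIcc t ht).1 (hIcc t ht).2] with s hs using (hxv s hs).1
    · rw [hdx t ht]
      linarith [hlow t ht, hm t ht]
    · rw [hdx t0 h0m, hv0, hdx t1 h1m]
      linarith [hlow t1 h1m]
  · intro f hf ε hε
    obtain ⟨g, γ, g1, g2, g3, ⟨c, hc, g4⟩, -, g5⟩ := dense5 h5 r f hf.1 hf.2 ε hε 0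
    have ht : Tendsto (fun t : ℝ => c * t ^ (1 / 25 : ℝ)) atTop atTop :=
      (tendsto_rpow_atTop (by norm_num)).const_mul_atTop hc
    obtain ⟨t0, h0, h1⟩ := ((ht.eventually_ge_atTop ((m : ℝ) + 1)).and (eventually_gt_atTop (0 : ℝ))).exists
    obtain ⟨t1, h2, h3⟩ := ((ht.eventually_gt_atTop (φ ‖deriv γ t0‖)).and (eventually_gt_atTop t0)).exists
    refine ⟨g, ⟨⟨g1, g2⟩, γ, t0, t1, h3, fun t ht => g5 (fun _ v _ => (∑ i, v i ^ 2) / 2)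
      (fun _ _ _ _ => rfl) t (h1.trans_le ht.1), ⟨1, one_pos, fun t ht => ?_⟩,
      h2.trans_le (g4 t1 (h1.trans h3).le)⟩, g3⟩
    refine (h0.trans ?_).trans (g4 t (h1.le.trans ht.1))
    exact mul_le_mul_of_nonneg_left (Real.rpow_le_rpow h1.le ht.1 (by norm_num)) hc.le

/-- the orbit segments are orbits of every Lagrangian which is free for `‖v‖ ≥ K` -/
theorem growth5 (h5 : S_MAIN5) (hBL : S_BL) (hEX : S_EX) (hGR : S_GR) (r : ℕ) (φ : ℝ → ℝ) :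
    ∃ O : ℕ → Set ((Fin (r + 2) → ℝ) → ℝ → ℝ), (∀ m, OpenDense (O m)) ∧
      ∀ f, (∀ m, f ∈ O m) → ∀ K : ℝ, ∃ (γ : ℝ → Fin (r + 2) → ℝ) (t0 t1 : ℝ), t0 < t1 ∧
        (∀ L : (Fin (r + 2) → ℝ) → (Fin (r + 2) → ℝ) → ℝ → ℝ,
          (∀ x v t, K ≤ ‖v‖ → L x v t = (∑ i, v i ^ 2) / 2) →
          ∀ t ∈ Icc t0 t1, EulerLagrange (fun x v t => L x v t + f x t) γ t) ∧
        (∀ t ∈ Icc t0 t1, K ≤ ‖deriv γ t‖) ∧ φ ‖deriv γ t0‖ < ‖deriv γ t1‖ := by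
  refine ⟨Gs r φ, fun m => openDense5 h5 hBL hEX hGR r φ m, fun f hf K => ?_⟩
  obtain ⟨m, hm⟩ := exists_nat_ge K
  obtain ⟨hpot, γ, t0, t1, h1, h2, ⟨μ, hμ, h3⟩, h4⟩ := hf m
  refine ⟨γ, t0, t1, h1, fun L hL t ht => ?_, fun t ht => by linarith [h3 t ht], h4⟩
  obtain ⟨d1, d2⟩ := (el_all (r + 2) f hpot.1).1 γ t (h2 t ht)
  have hev : ∀ᶠ s in 𝓝 t, K < ‖deriv γ s‖ := by
    refine (d2.continuousAt.norm).eventually_const_lt ?_
    linarith [h3 t ht]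
  exact el_fast hL hev d1.differentiableAt d2 fun i => gr_hasDerivAt hpot.1 (γ t) t i

end Pool.Agent.J6H59.AD
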