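import Pool.Agent.J6H59.AD.M5
import Pool.Agent.J6H59.AD.D6
import Pool.Agent.J6H33.AD.Ana4
import Pool.Agent.J6H70.AD.Avg5
import Pool.Agent.J6H75.AD.Gam5
import Pool.Agent.J6H75.AD.Col5
import Pool.Agent.J6H27.AD.V5
import Pool.Agent.J6H27.AD.Sep5
import Pool.Agent.N980.TL.FN
import Pool.Agent.N980.TL.SUM
import Pool.Agent.N980.TL.Cls
import Pool.Agent.N980.TL.BND3
import Pool.Agent.N980.TL.Per3
import Pool.Agent.N980.TL.Nrm
import Pool.Agent.N980.TL.Lam
import Pool.Agent.N980.TL.UU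

/-!
# The main theorem for trigonometric polynomials
-/

set_option autoImplicit false

namespace Pool.Agent.J6H59.AD

open Pool.Agent.N980.TL Pool.Agent.J6H70.AD Pool.Agent.J6H75.AD Pool.Agent.J6H27.AD Pool.Agent.J6H33.AD

theorem main5_all : S_MAIN5 :=
  main5 fn_all (bnd3_all fn_all) per3_all sum_all nrm_all lam_all uu_all (avg_of alg_all ana_all)
    (gam5_all fn_all cls_all) (col5_all fn_all) v5_all sep5_all

end Pool.Agent.J6H59.AD
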