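import Pool.Agent.J6H59.AD.M5a

/-!
# The sequences of positions and velocities; bounds of the radii
-/

set_option autoImplicit false

open Set Filter Topology MeasureTheory
open scoped ContDiff

noncomputable section

namespace Pool.Agent.J6H59.AD

open Pool.Agent.N980.TL Pool.Agent.J6H70.AD

theorem inv_yy_le (l : ℕ) {a b : ℕ} (h : a ≤ b) : 1 / yy l ^ b ≤ 1 / yy l ^ a := by
  have h1 := yy_one_le l
  exact one_div_le_one_div_of_le (by positivity) (pow_le_pow_right₀ h1 h)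

theorem log_block {l j : ℕ} (hj : j ∈ Finset.Ico (2 ^ l) (2 ^ (l + 1))) : Nat.log 2 j = l := by
  rw [Finset.mem_Ico] at hj
  have hj0 : j ≠ 0 := by have : 0 < 2 ^ l := by positivity
                         omega
  exact (Nat.log_eq_iff (Or.inr ⟨by norm_num, hj0⟩)).2 hj

theorem mem_block {l0 j : ℕ} (hj : 2 ^ l0 ≤ j) : l0 ≤ Nat.log 2 j ∧
    j ∈ Finset.Ico (2 ^ Nat.log 2 j) (2 ^ (Nat.log 2 j + 1)) := by
  have hj0 : j ≠ 0 := by have : 0 < 2 ^ l0 := by positivity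
                         omega
  exact ⟨(Nat.le_log_iff_pow_le (by norm_num) hj0).2 hj,
    Finset.mem_Ico.2 ⟨Nat.pow_log_le_self 2 hj0, Nat.lt_pow_succ_log_self (by norm_num) j⟩⟩

theorem seq5 (hUU : S_UU) (r l0 : ℕ) (V : ℕ → ℝ) (hV : VSeq l0 V) :
    ∃ P U A : ℕ → E (r + 2), (∀ j, U (j + 1) = U j + A j) ∧
      (∀ j, P (j + 1) = P j + U j + kap • A j) ∧
      (∀ j, U j 0 = V j) ∧ (∀ j, U j 1 = uu (1 / 32) j) ∧ P 0 1 = 0 ∧
      (∀ (i : Fin r) (j : ℕ), U j i.succ.succ = 0) ∧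
      (∀ l, l0 ≤ l → ∀ j ∈ Finset.Ico (2 ^ l) (2 ^ (l + 1)), ‖A j‖ ≤ 1 / yy l ^ 48 ∧
        (¬ GoodV l (V j) → ‖A j‖ ≤ 1 / yy l ^ 56)) ∧
      (∀ j, 0 ≤ A j 0) ∧ (∀ j, ∀ i, i ≠ 0 → |U j i| ≤ 2) := by
  obtain ⟨u1, u2, u3, u4, -, -⟩ := hUU (1 / 32) (by norm_num) (by norm_num)
  set U : ℕ → E (r + 2) := fun j => Fin.cases (V j) (Fin.cases (uu (1 / 32) j) (fun _ => 0)) with hU
  set A : ℕ → E (r + 2) := fun j => U (j + 1) - U j with hA
  have hU0 : ∀ j, U j 0 = V j := fun j => rfl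
  have hU1 : ∀ j, U j 1 = uu (1 / 32) j := fun j => rfl
  have hU2 : ∀ (i : Fin r) (j : ℕ), U j i.succ.succ = 0 := fun i j => rfl
  have hA0 : ∀ j, A j 0 = V (j + 1) - V j := fun j => rfl
  have hA1 : ∀ j, A j 1 = uu (1 / 32) (j + 1) - uu (1 / 32) j := fun j => rfl
  have hA2 : ∀ (i : Fin r) (j : ℕ), A j i.succ.succ = 0 := fun i j => sub_self _
  have hnorm : ∀ j (B : ℝ), 0 ≤ B → |A j 0| ≤ B → |A j 1| ≤ B → ‖A j‖ ≤ B := by
    intro j B hB h0 h1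
    rw [pi_norm_le_iff_of_nonneg hB]
    intro i
    rw [Real.norm_eq_abs]
    refine Fin.cases h0 (fun i => Fin.cases h1 (fun i => ?_) i) i
    rw [hA2, abs_zero]
    exact hB
  have hslow : ∀ l, ∀ j ∈ Finset.Ico (2 ^ l) (2 ^ (l + 1)), |A j 1| ≤ 1 / yy l ^ 56 := by
    intro l j hj
    rw [hA1, abs_sub_comm, abs_of_nonneg (by linarith [u1 j])]
    have hj1 : 1 ≤ j := by
      rw [Finset.mem_Ico] at hj
      exact Nat.one_le_two_pow.trans hj.1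
    have h1 := u4 j hj1
    rw [log_block hj] at h1
    refine h1.trans ?_
    refine le_trans ?_ (inv_yy_le l (show 56 ≤ 100 by norm_num))
    have e : yy l ^ 100 = 2 ^ l * 2 ^ l := by
      rw [← yy_pow l]; ring
    rw [e]
    unfold ww
    have hl : (1 : ℝ) ≤ ((l : ℝ) + 1) ^ 2 := by
      have : (0 : ℝ) ≤ l := by positivity
      nlinarith
    have h2 : (0 : ℝ) < 2 ^ l := by positivity
    rw [div_div]
    refine div_le_div₀ zero_le_one (by norm_num) (by positivity) ?_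
    calc (2 : ℝ) ^ l * 2 ^ l = 2 ^ l * 1 * 2 ^ l := by ring
      _ ≤ 2 ^ l * ((l : ℝ) + 1) ^ 2 * 2 ^ l := by gcongr
  refine ⟨fun j => ∑ i ∈ Finset.range j, (U i + kap • A i), U, A, fun j => ?_, fun j => ?_, hU0, hU1,
    ?_, hU2, fun l hl j hj => ⟨?_, fun hb => ?_⟩, fun j => ?_, fun j i hi => ?_⟩
  · simp only [hA]; abel
  · simp only [Finset.sum_range_succ]; abel
  · simp
  · refine hnorm j _ (by have := yy_pos l; positivity) ?_ ((hslow l j hj).trans (inv_yy_le l (by norm_num)))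
    rw [hA0, abs_of_nonneg (by linarith [hV.mono j])]
    exact hV.step l hl j hj
  · refine hnorm j _ (by have := yy_pos l; positivity) ?_ (hslow l j hj)
    rw [hA0, abs_of_nonneg (by linarith [hV.mono j])]
    exact hV.bad l hl j hj hb
  · rw [hA0]; linarith [hV.mono j]
  · refine Fin.cases (fun h => absurd rfl h) (fun i => Fin.cases (fun _ => ?_) (fun i _ => ?_) i) i hi
    · show |U j 1| ≤ 2
      rw [hU1, abs_of_pos (u2 j).1]
      exact (u2 j).2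
    · rw [hU2, abs_zero]; norm_num

/-! ### the radii -/

theorem ww_eq (l : ℕ) : ww (1 / 32) (l + 2) = 1 / (128 * (yy l ^ 50 * ((l : ℝ) + 3) ^ 2)) := by
  unfold ww
  rw [yy_pow, pow_add, div_div]
  congr 1
  push_cast
  ring

theorem rd_good {c2 : ℝ} {l : ℕ} {V : ℝ} (h : GoodV l V) : rd c2 l V = c2 * (1 / yy l ^ 43) := by
  unfold rd
  rw [if_pos h]

theorem rd_bad {c2 : ℝ} {l : ℕ} {V : ℝ} (h : ¬ GoodV l V) :
    rd c2 l V = c2 * (1 / (128 * (yy l ^ 50 * ((l : ℝ) + 3) ^ 2))) := by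
  unfold rd
  rw [if_neg h, ww_eq]

theorem rd_pos {c2 : ℝ} (h : 0 < c2) (l : ℕ) (V : ℝ) : 0 < rd c2 l V := by
  have := yy_pos l
  by_cases hg : GoodV l V
  · rw [rd_good hg]; positivity
  · rw [rd_bad hg]; positivity

theorem rd_le {c2 : ℝ} (h : 0 < c2) (h1 : c2 ≤ 1) (l : ℕ) (V : ℝ) : rd c2 l V ≤ 1 / yy l ^ 4 := by
  have hy := yy_pos l
  have hy1 := yy_one_le l
  by_cases hg : GoodV l V
  · rw [rd_good hg]
    calc c2 * (1 / yy l ^ 43) ≤ 1 * (1 / yy l ^ 43) := by gcongr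
      _ = 1 / yy l ^ 43 := one_mul _
      _ ≤ 1 / yy l ^ 4 := inv_yy_le l (by norm_num)
  · rw [rd_bad hg]
    calc c2 * (1 / (128 * (yy l ^ 50 * ((l : ℝ) + 3) ^ 2)))
        ≤ 1 * (1 / (128 * (yy l ^ 50 * ((l : ℝ) + 3) ^ 2))) := by gcongr
      _ = 1 / (128 * (yy l ^ 50 * ((l : ℝ) + 3) ^ 2)) := one_mul _
      _ ≤ 1 / yy l ^ 50 := by
        refine one_div_le_one_div_of_le (by positivity) ?_
        have h2 : (1 : ℝ) ≤ 128 * ((l : ℝ) + 3) ^ 2 := by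
          have : (0 : ℝ) ≤ l := by positivity
          nlinarith
        have h3 : 0 < yy l ^ 50 := by positivity
        nlinarith
      _ ≤ 1 / yy l ^ 4 := inv_yy_le l (by norm_num)

/-- the acceleration is much smaller than the radius -/
theorem acc_le {Cp : ℝ} (hCp : 1 ≤ Cp) (hp : ∀ l : ℕ, ((l : ℝ) + 3) ^ 2 ≤ Cp * yy l) {c2 C : ℝ} (hc2 : 0 < c2)
    (hC : 0 ≤ C) {l : ℕ} (hl : 128 * C * Cp / c2 ≤ yy l) {V a : ℝ} (ha : a ≤ 1 / yy l ^ 48)
    (hb : ¬ GoodV l V → a ≤ 1 / yy l ^ 56) : C * a ≤ rd c2 l V := by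
  have hy := yy_pos l
  have hy1 := yy_one_le l
  rw [div_le_iff₀ hc2] at hl
  by_cases hg : GoodV l V
  · rw [rd_good hg]
    refine (mul_le_mul_of_nonneg_left ha hC).trans ?_
    rw [mul_one_div, mul_one_div, div_le_div_iff₀ (by positivity) (by positivity)]
    have h1 : C ≤ c2 * yy l := by nlinarith [mul_nonneg hC (by linarith : (0 : ℝ) ≤ Cp - 1)]
    have h2 : yy l ≤ yy l ^ 5 := le_self_pow₀ hy1 (by norm_num)
    calc C * yy l ^ 43 ≤ (c2 * yy l ^ 5) * yy l ^ 43 := by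
          gcongr
          exact h1.trans (mul_le_mul_of_nonneg_left h2 hc2.le)
      _ = c2 * yy l ^ 48 := by ring
  · rw [rd_bad hg]
    refine (mul_le_mul_of_nonneg_left (hb hg) hC).trans ?_
    rw [mul_one_div, mul_one_div, div_le_div_iff₀ (by positivity) (by positivity)]
    have h3 := hp l
    have h4 : yy l ≤ yy l ^ 5 := le_self_pow₀ hy1 (by norm_num)
    calc C * (128 * (yy l ^ 50 * ((l : ℝ) + 3) ^ 2)) ≤ C * (128 * (yy l ^ 50 * (Cp * yy l))) := by gcongr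
      _ = (128 * C * Cp) * yy l ^ 51 := by ring
      _ ≤ (yy l * c2) * yy l ^ 51 := by gcongr
      _ ≤ (yy l ^ 5 * c2) * yy l ^ 51 := by gcongr
      _ = c2 * yy l ^ 56 := by ring

/-- the bound of the potentials -/
theorem pot_le {Cp : ℝ} (hCp : 1 ≤ Cp) (hp : ∀ l : ℕ, ((l : ℝ) + 3) ^ 2 ≤ Cp * yy l) {c2 CL : ℝ} (hc2 : 0 < c2)
    (hCL : 0 ≤ CL) {l : ℕ} {V a : ℝ} (ha : a ≤ CL * (1 / yy l ^ 48))
    (hb : ¬ GoodV l V → a ≤ CL * (1 / yy l ^ 56)) :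
    (a + 1 / (yy l ^ 2) ^ 28) * rd c2 l V * (yy l ^ 2 / rd c2 l V) ^ 2 ≤
      128 * (CL + 1) * Cp / c2 * (1 / yy l) := by
  have hy := yy_pos l
  have hy1 := yy_one_le l
  have hr := rd_pos hc2 l V
  have e1 : (a + 1 / (yy l ^ 2) ^ 28) * rd c2 l V * (yy l ^ 2 / rd c2 l V) ^ 2 =
      (a + 1 / yy l ^ 56) * yy l ^ 4 / rd c2 l V := by
    rw [← pow_mul]
    field_simp
    ring
  rw [e1]
  by_cases hg : GoodV l V
  · rw [rd_good hg]
    have h1 : a + 1 / yy l ^ 56 ≤ (CL + 1) * (1 / yy l ^ 48) := by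
      have := inv_yy_le l (show 48 ≤ 56 by norm_num)
      linarith
    calc (a + 1 / yy l ^ 56) * yy l ^ 4 / (c2 * (1 / yy l ^ 43))
        ≤ ((CL + 1) * (1 / yy l ^ 48)) * yy l ^ 4 / (c2 * (1 / yy l ^ 43)) := by gcongr
      _ = (CL + 1) / c2 * (1 / yy l) := by field_simp
      _ ≤ 128 * (CL + 1) * Cp / c2 * (1 / yy l) := by
        gcongr
        nlinarith
  · rw [rd_bad hg]
    have h1 : a + 1 / yy l ^ 56 ≤ (CL + 1) * (1 / yy l ^ 56) := by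
      have := hb hg
      linarith
    have h3 := hp l
    calc (a + 1 / yy l ^ 56) * yy l ^ 4 / (c2 * (1 / (128 * (yy l ^ 50 * ((l : ℝ) + 3) ^ 2))))
        ≤ ((CL + 1) * (1 / yy l ^ 56)) * yy l ^ 4 / (c2 * (1 / (128 * (yy l ^ 50 * ((l : ℝ) + 3) ^ 2)))) := by
          gcongr
      _ = 128 * (CL + 1) / c2 * (((l : ℝ) + 3) ^ 2 / yy l ^ 2) := by field_simp
      _ ≤ 128 * (CL + 1) / c2 * (Cp * yy l / yy l ^ 2) := by gcongr
      _ = 128 * (CL + 1) * Cp / c2 * (1 / yy l) := by field_simp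

end Pool.Agent.J6H59.AD
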