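import Pool.Agent.J6H59.AD.M5b
import Pool.Agent.N980.TL.Eng

/-!
# Main theorem for trigonometric polynomials (MAIN5)
-/

set_option autoImplicit false

open Set Filter Topology MeasureTheory
open scoped ContDiff

noncomputable section

namespace Pool.Agent.J6H59.AD

open Pool.Agent.N980.TL Pool.Agent.J6H70.AD

theorem NRS.mono {n S : ℕ} {c1 C1 V V' : ℝ} {v w : Fin n → ℝ} (hc : 0 ≤ c1) (h : NRS S c1 C1 V' w)
    (hV : V ≤ V') (hw : ‖w‖ ≤ C1 * V) : NRS S c1 C1 V w :=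
  ⟨fun k m hk h1 h2 => (mul_le_mul_of_nonneg_left hV hc).trans (h.1 k m hk h1 h2), hw⟩

theorem main5 (hf : S_FN) (hBND : S_BND3) (hPer : S_PER3) (hSum : S_SUM) (hNrm : S_NRM) (hLam : S_LAM)
    (hUU : S_UU) (hAVG : S_AVG) (hGAM : S_GAM5) (hCOL : S_COL5) (hV5 : S_V5) (hSEP : S_SEP5) : S_MAIN5 := by
  intro r N0 D0 ε hε Vmin
  obtain ⟨N, D, M0, g, hM1, hpos, -, hval⟩ := hNrm (r + 2) N0 D0
  have hk : ∀ μ, D.k μ ≠ 0 := by
    intro μ h
    have h1 := hpos μ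
    rw [h] at h1
    simp at h1
  obtain ⟨S, X, hX⟩ := hAVG (r + 2) N D hk 28
  obtain ⟨Λ, CL, hCL1, hΛ0, hΛ, hΛs, hΛn⟩ := hLam r (2 * S + 1)
  have hCL0 : 0 < CL := by linarith
  have hkap : 0 ≤ kap ∧ kap ≤ 1 := by
    obtain ⟨-, -, -, -, -, -, -, -, -, h, -⟩ := hf
    exact h
  obtain ⟨V1, hNR⟩ := nrs_of Λ hΛs hΛn 2 3 (by norm_num) (by norm_num) hCL0.le
  set C1 : ℝ := CL * (3 + 2) + 2 with hC1
  obtain ⟨Cg, hCg1, hGam⟩ := hGAM (r + 2) N D 28 S X hX (1 / 2) C1 (by norm_num)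
  obtain ⟨Cc, hCc1, hCol⟩ := hCOL (r + 2) N D 28 S X hX (1 / 2) C1 (by norm_num)
  obtain ⟨CA, hCA1, hBA⟩ := hBND (r + 2) chA Cg chA_smooth (by
    intro s hs
    have hs' : s < 1 / 8 ∨ 7 / 8 < s := by
      by_contra hc
      push Not at hc
      exact hs ⟨by linarith [hc.1], by linarith [hc.2]⟩
    rcases hs' with h | h
    · filter_upwards [gt_mem_nhds h] with s' hs'
      exact chA_zero (Or.inl hs'.le)
    · filter_upwards [lt_mem_nhds h] with s' hs'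
      exact chA_zero (Or.inr hs'.le))
  obtain ⟨CB, hCB1, hBB⟩ := hBND (r + 2) chB Cg chB_smooth (by
    intro s hs
    have hs' : s < -(1 / 4) ∨ 1 / 4 < s := by
      by_contra hc
      push Not at hc
      exact hs ⟨by linarith [hc.1], by linarith [hc.2]⟩
    rcases hs' with h | h
    · filter_upwards [gt_mem_nhds h] with s' hs'
      exact chB_zero (Or.inl hs'.le)
    · filter_upwards [lt_mem_nhds h] with s' hs'
      exact chB_zero (Or.inr hs'.le))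
  have hCg0 : 0 < Cg := by linarith
  have hCc0 : 0 < Cc := by linarith
  set K : ℝ := max CA CB with hK
  have hK1 : 1 ≤ K := hCA1.trans (le_max_left _ _)
  obtain ⟨Cp, hCp1, hp⟩ := yy_poly
  set MM : ℝ := ((2 * S + 1 : ℕ) : ℝ) + 1 with hMM
  have hMM1 : 1 ≤ MM := by rw [hMM]; push_cast; linarith [(Nat.cast_nonneg S : (0 : ℝ) ≤ S)]
  set B0 : ℝ := MM * (2 + 4 * Cc * CL) with hB0
  have hB01 : 1 ≤ B0 := by
    have : 0 < Cc * CL := by positivity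
    nlinarith
  obtain ⟨c2, L1, hc2, hc21, hSep⟩ := hSEP B0 hB01
  obtain ⟨L2, hV⟩ := hV5
  set Cb : ℝ := K * Cg * (128 * (CL + 1) * Cp / c2) with hCb
  have hCb0 : 0 ≤ Cb := by positivity
  set BB : ℕ → ℝ := fun l => Cb * (1 / yy l) with hBBd
  have hBB0 : ∀ l, 0 ≤ BB l := fun l => by have := yy_pos l; simp only [hBBd]; positivity
  have hBBs : Summable BB := yy_inv_summable.mul_left Cb
  -- the choice of `l0`
  obtain ⟨l0, hl00, hL1, hL2, hl01⟩ : ∃ l0 : ℕ, (∀ l, l0 ≤ l →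
      max (max (max V1 CL) (max Cc (128 * (Cc * CL) * Cp / c2))) (max (max (6 * B0 + 1) (2 * Cg))
        (2 * |Vmin| + 1)) ≤ yy l) ∧ L1 ≤ l0 ∧ L2 ≤ l0 ∧ ∑' l, BB (l + l0) ≤ ε / 2 := by
    have t1 := (tendsto_sum_nat_add BB).eventually_le_const (half_pos hε)
    have t2 := yy_tendsto.eventually_ge_atTop (max (max (max V1 CL) (max Cc (128 * (Cc * CL) * Cp / c2)))
      (max (max (6 * B0 + 1) (2 * Cg)) (2 * |Vmin| + 1)))
    obtain ⟨l1, h1⟩ := eventually_atTop.1 (((t1.and t2).and (eventually_ge_atTop L1)).and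
      (eventually_ge_atTop L2))
    exact ⟨l1, fun l hl => (h1 l hl).1.1.2, (h1 l1 le_rfl).1.2, (h1 l1 le_rfl).2, (h1 l1 le_rfl).1.1.1⟩
  have hy2 : ∀ l, yy l ≤ yy l ^ 2 := fun l => le_self_pow₀ (yy_one_le l) (by norm_num)
  have g1 : ∀ l, l0 ≤ l → V1 ≤ yy l ^ 2 := fun l hl =>
    (((le_max_left _ _).trans ((le_max_left _ _).trans (le_max_left _ _))).trans (hl00 l hl)).trans (hy2 l)
  have g2 : ∀ l, l0 ≤ l → CL ≤ yy l := fun l hl =>
    ((le_max_right _ _).trans ((le_max_left _ _).trans (le_max_left _ _))).trans (hl00 l hl)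
  have g3 : ∀ l, l0 ≤ l → Cc ≤ yy l ^ 2 := fun l hl =>
    (((le_max_left _ _).trans ((le_max_right _ _).trans (le_max_left _ _))).trans (hl00 l hl)).trans (hy2 l)
  have g4 : ∀ l, l0 ≤ l → 128 * (Cc * CL) * Cp / c2 ≤ yy l := fun l hl =>
    ((le_max_right _ _).trans ((le_max_right _ _).trans (le_max_left _ _))).trans (hl00 l hl)
  have g5 : ∀ l, l0 ≤ l → 6 * B0 + 1 ≤ yy l := fun l hl =>
    ((le_max_left _ _).trans ((le_max_left _ _).trans (le_max_right _ _))).trans (hl00 l hl)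
  have g6 : ∀ l, l0 ≤ l → 2 * Cg ≤ yy l := fun l hl =>
    ((le_max_right _ _).trans ((le_max_left _ _).trans (le_max_right _ _))).trans (hl00 l hl)
  have g7 : ∀ l, l0 ≤ l → 2 * |Vmin| + 1 ≤ yy l := fun l hl =>
    ((le_max_right _ _).trans (le_max_right _ _)).trans (hl00 l hl)
  obtain ⟨V, hVS⟩ := hV l0 hL2
  obtain ⟨P, U, A, hU, hP, hU0, hU1, hP0, hU2, hA, hA0, hUW⟩ := seq5 hUU r l0 V hVS
  have hSep' := hSep l0 hL1 V hVS r P U A hU hP hU0 hU1 hP0 hU2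
  set d : ℕ → ℝ := fun j => rd c2 (Nat.log 2 j) (V j) with hd
  have hd0 : ∀ j, 0 < d j := fun j => rd_pos hc2 _ _
  have hdle : ∀ j, d j ≤ 1 / yy (Nat.log 2 j) ^ 4 := fun j => rd_le hc2 hc21 _ _
  have hyi4 : ∀ l, 1 / yy l ^ 4 ≤ 1 := fun l => by
    rw [div_le_one (by have := yy_pos l; positivity)]
    exact one_le_pow₀ (yy_one_le l)
  -- the path
  set G : ℕ → ℝ → E (r + 2) := fun j s => gm X (Λ (P j)) (Λ (U j)) (Λ (A j)) s with hG
  have hΛA1 : ∀ l, l0 ≤ l → ∀ j ∈ Finset.Ico (2 ^ l) (2 ^ (l + 1)), ‖Λ (A j)‖ ≤ CL * (1 / yy l ^ 48) :=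
    fun l hl j hj => (hΛn _).trans (mul_le_mul_of_nonneg_left (hA l hl j hj).1 hCL0.le)
  have hΛA2 : ∀ l, l0 ≤ l → ∀ j ∈ Finset.Ico (2 ^ l) (2 ^ (l + 1)), ¬ GoodV l (V j) →
      ‖Λ (A j)‖ ≤ CL * (1 / yy l ^ 56) :=
    fun l hl j hj hb => (hΛn _).trans (mul_le_mul_of_nonneg_left ((hA l hl j hj).2 hb) hCL0.le)
  have hΛA3 : ∀ l, l0 ≤ l → ∀ j ∈ Finset.Ico (2 ^ l) (2 ^ (l + 1)), ‖Λ (A j)‖ ≤ 1 := by
    intro l hl j hj
    refine (hΛA1 l hl j hj).trans ?_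
    have hy := yy_pos l
    rw [mul_one_div, div_le_one (by positivity)]
    exact (g2 l hl).trans (le_self_pow₀ (yy_one_le l) (by norm_num))
  have hyy1 : ∀ l, 1 ≤ yy l ^ 2 := fun l => one_le_pow₀ (yy_one_le l)
  have hall : ∀ l, l0 ≤ l → ∀ j ∈ Finset.Ico (2 ^ l) (2 ^ (l + 1)),
      NRS S (1 / 2) C1 (yy l ^ 2) (Λ (U j)) ∧ NRS S (1 / 2) C1 (yy l ^ 2) (Λ (U j) + Λ (A j)) ∧
      ‖Λ (U j)‖ ≤ CL * (3 + 2) * yy l ^ 2 := by
    intro l hl j hj
    have hlo := hVS.lo l hl j hj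
    have hhi := hVS.hi l hl j hj
    have hst := hVS.step l hl j hj
    have hmo := hVS.mono j
    have hy48 : 1 / yy l ^ 48 ≤ 1 := by
      rw [div_le_one (by have := yy_pos l; positivity)]
      exact one_le_pow₀ (yy_one_le l)
    have h1 := hyy1 l
    have a1 := hNR (yy l ^ 2) (U j) (g1 l hl) h1 (by rw [hU0]; exact hlo) (by rw [hU0]; linarith) (hUW j)
    have a2 := hNR (yy l ^ 2) (U (j + 1)) (g1 l hl) h1 (by rw [hU0]; linarith) (by rw [hU0]; linarith)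
      (hUW (j + 1))
    refine ⟨a1.1, ?_, a1.2⟩
    rw [← map_add, ← hU]
    exact a2.1
  have hgm : ∀ l, l0 ≤ l → ∀ j ∈ Finset.Ico (2 ^ l) (2 ^ (l + 1)), ∀ i,
      ContDiff ℝ ∞ (fun s => G j s i) ∧ Cls 2 (yy l ^ 2) (Cg * yy l ^ 2) (deriv fun s => G j s i) ∧
      Cls 2 (yy l ^ 2) (Cg * (‖Λ (A j)‖ + 1 / (yy l ^ 2) ^ 28)) (fun s => Fo D (G j) s i) ∧
      ∀ s, 0 ≤ s → s ≤ 1 → |deriv (fun s => G j s i) s - (Λ (U j) i + tp s * Λ (A j) i)| ≤ Cg / yy l ^ 2 := by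
    intro l hl j hj i
    obtain ⟨k1, k2, k3⟩ := hall l hl j hj
    obtain ⟨m1, m2, m3, m4, m5⟩ := hGam (yy l ^ 2) (Λ (P j)) (Λ (U j)) (Λ (A j)) (hyy1 l)
      (hΛA3 l hl j hj) k1 k2 i
    exact ⟨m1, m2, m4, m5⟩
  have hglue : ∀ j s, 3 / 4 ≤ s → s ≤ 5 / 4 → G j s = G (j + 1) (s - 1) := by
    intro j s h0 h1
    simp only [hG]
    rw [hP j, hU j]
    simp only [map_add, map_smul]
    exact gm_glue hf X (Λ (P j)) (Λ (U j)) (Λ (A j)) (Λ (A (j + 1))) h0 h1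
  have hGs : ∀ j, 2 ^ l0 ≤ j → ∀ i, ContDiff ℝ ∞ (fun s => G j s i) := fun j hj i =>
    (hgm _ (mem_block hj).1 j (mem_block hj).2 i).1
  have hdisj : ∀ i j, 2 ^ l0 ≤ i → i < j → ∀ σ : ℝ, -1 ≤ σ → σ ≤ 1 → ∀ x : E (r + 2),
      (∀ m, |Real.sin (Real.pi * (x m - G i σ m))| ≤ d i) →
      (∀ m, |Real.sin (Real.pi * (x m - G j σ m))| ≤ d j) → False := by
    intro i j hi hij σ h0 h1 x q1 q2
    have hj : 2 ^ l0 ≤ j := hi.trans hij.le
    obtain ⟨hli, hbi⟩ := mem_block hi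
    obtain ⟨hlj, hbj⟩ := mem_block hj
    have hlij : Nat.log 2 i ≤ Nat.log 2 j := Nat.log_mono_right hij.le
    set li := Nat.log 2 i with hlid
    set lj := Nat.log 2 j with hljd
    have hyij : yy li ≤ yy lj := yy_mono hlij
    have hyi := yy_pos li
    have hyj := yy_pos lj
    have hyij2 : yy li ^ 2 ≤ yy lj ^ 2 := by gcongr
    obtain ⟨i1, i2, i3⟩ := hall li hli i hbi
    obtain ⟨j1, j2, j3⟩ := hall lj hlj j hbj
    have i4 := hΛA3 li hli i hbi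
    have j4 := hΛA3 lj hlj j hbj
    have hslack : ‖Λ (U j) - Λ (U i)‖ ≤ 1 →
        NRS S (1 / 2) C1 (yy li ^ 2) (Λ (U j)) ∧ NRS S (1 / 2) C1 (yy li ^ 2) (Λ (U j) + Λ (A j)) := by
      intro h
      have n1 : ‖Λ (U j)‖ ≤ ‖Λ (U i)‖ + 1 := by
        have := norm_add_le (Λ (U i)) (Λ (U j) - Λ (U i))
        rw [add_sub_cancel] at this
        linarith
      have n2 : ‖Λ (U j) + Λ (A j)‖ ≤ ‖Λ (U i)‖ + 2 := (norm_add_le _ _).trans (by linarith)
      have n3 := hyy1 li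
      refine ⟨NRS.mono (v := Λ (U j)) (by norm_num) j1 hyij2 ?_,
        NRS.mono (v := Λ (U j)) (by norm_num) j2 hyij2 ?_⟩
      · rw [hC1]; nlinarith
      · rw [hC1]; nlinarith
    -- the integers
    choose a ha using fun m => sin_dist (q1 m)
    choose b hb using fun m => sin_dist (q2 m)
    have hcol := hCol (yy li ^ 2) (yy lj ^ 2) (Λ (P i)) (Λ (U i)) (Λ (A i)) (Λ (P j)) (Λ (U j)) (Λ (A j))
      (hyy1 li) hyij2 (g3 li hli) i4 j4 i1 i2 j1 j2 hslack σ ((d i + d j) / 2) h0 h1 (fun m => a m - b m) (by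
        intro m
        have e : gm X (Λ (P j)) (Λ (U j)) (Λ (A j)) σ m - gm X (Λ (P i)) (Λ (U i)) (Λ (A i)) σ m -
            ((a m - b m : ℤ) : ℝ) = (x m - G i σ m - a m) - (x m - G j σ m - b m) := by
          simp only [hG]
          push_cast
          ring
        rw [e]
        refine (abs_sub _ _).trans ?_
        linarith [ha m, hb m])
    rw [lam_pos', lam_pos'] at hcol
    set z : E (r + 2) := pos (P j) (U j) (A j) σ - pos (P i) (U i) (A i) σ with hz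
    have hΛz : ∀ m, Λ z m = Λ (pos (P j) (U j) (A j) σ) m - Λ (pos (P i) (U i) (A i) σ) m := by
      intro m; rw [hz, map_sub]; rfl
    set Δ' : ℝ := 2 * ((d i + d j) / 2) + Cc / (yy li ^ 2) ^ 2 *
      min 1 (‖Λ (U j) - Λ (U i)‖ + ‖Λ (A i)‖ + ‖Λ (A j)‖) with hΔ'
    have hcol' : ∀ m, |Λ z m - ((a m - b m : ℤ) : ℝ)| ≤ Δ' := by
      intro m
      rw [hΛz]
      exact hcol m
    obtain ⟨⟨s1, s2⟩, s3⟩ := hSep' i j hi hij σ h0 h1
    -- the bound of `Δ'`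
    have b1 : Cc * CL * ‖A i‖ ≤ d i := acc_le hCp1 hp hc2 (by positivity) (g4 li hli) (hA li hli i hbi).1
      (hA li hli i hbi).2
    have b2 : Cc * CL * ‖A j‖ ≤ d j := acc_le hCp1 hp hc2 (by positivity) (g4 lj hlj) (hA lj hlj j hbj).1
      (hA lj hlj j hbj).2
    have hVi := hVS.hi li hli i hbi
    have hVi0 := hVS.lo li hli i hbi
    have hVip : 0 < V i := lt_of_lt_of_le (by positivity) hVi0
    have b3 : ‖Λ (U j) - Λ (U i)‖ ≤ CL * ‖U j - U i‖ := by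
      rw [← map_sub]; exact hΛn _
    have b4 : ‖Λ (A i)‖ ≤ CL * ‖A i‖ := hΛn _
    have b5 : ‖Λ (A j)‖ ≤ CL * ‖A j‖ := hΛn _
    have b6 : min 1 (‖Λ (U j) - Λ (U i)‖ + ‖Λ (A i)‖ + ‖Λ (A j)‖) ≤
        CL * min 1 ‖U j - U i‖ + CL * ‖A i‖ + CL * ‖A j‖ := by
      have c1 : 0 ≤ CL * ‖A i‖ := by positivity
      have c2 : 0 ≤ CL * ‖A j‖ := by positivity
      rcases le_total 1 ‖U j - U i‖ with h | h
      · rw [min_eq_left h]
        refine (min_le_left _ _).trans ?_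
        linarith
      · rw [min_eq_right h]
        refine (min_le_right _ _).trans ?_
        linarith
    have b7 : Cc / (yy li ^ 2) ^ 2 ≤ Cc := div_le_self hCc0.le (one_le_pow₀ (hyy1 li))
    have b8 : Cc / (yy li ^ 2) ^ 2 ≤ 4 * Cc / V i ^ 2 := by
      rw [div_le_div_iff₀ (by positivity) (by positivity)]
      have : V i ^ 2 ≤ (2 * yy li ^ 2) ^ 2 := by gcongr
      nlinarith
    have hmin0 : 0 ≤ min 1 ‖U j - U i‖ := le_min zero_le_one (norm_nonneg _)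
    have b9 : Δ' ≤ 2 * (d i + d j) + 4 * Cc * CL * (min 1 ‖U j - U i‖ / V i ^ 2) := by
      have c0 : 0 ≤ Cc / (yy li ^ 2) ^ 2 := by positivity
      calc Δ' ≤ (d i + d j) + Cc / (yy li ^ 2) ^ 2 * (CL * min 1 ‖U j - U i‖ + CL * ‖A i‖ + CL * ‖A j‖) := by
            rw [hΔ']
            have := mul_le_mul_of_nonneg_left b6 c0
            linarith
        _ = (d i + d j) + Cc / (yy li ^ 2) ^ 2 * (CL * min 1 ‖U j - U i‖) +
              Cc / (yy li ^ 2) ^ 2 * (CL * ‖A i‖) + Cc / (yy li ^ 2) ^ 2 * (CL * ‖A j‖) := by ring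
        _ ≤ (d i + d j) + 4 * Cc / V i ^ 2 * (CL * min 1 ‖U j - U i‖) + Cc * (CL * ‖A i‖) +
              Cc * (CL * ‖A j‖) := by gcongr
        _ = (d i + d j) + 4 * Cc * CL * (min 1 ‖U j - U i‖ / V i ^ 2) + Cc * CL * ‖A i‖ +
              Cc * CL * ‖A j‖ := by ring
        _ ≤ _ := by linarith
    set Δ : ℝ := B0 * (rd c2 li (V i) + rd c2 lj (V j) + min 1 ‖U j - U i‖ / V i ^ 2) with hΔ
    have b10 : MM * Δ' ≤ Δ := by
      have c1 : 0 ≤ min 1 ‖U j - U i‖ / V i ^ 2 := by positivity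
      have c2 : 0 < d i := hd0 i
      have c3 : 0 < d j := hd0 j
      have c4 : 0 < Cc * CL := by positivity
      have e : Δ = MM * ((2 + 4 * Cc * CL) * (d i + d j + min 1 ‖U j - U i‖ / V i ^ 2)) := by
        rw [hΔ, hB0]; ring
      rw [e]
      refine mul_le_mul_of_nonneg_left (b9.trans ?_) (by linarith)
      nlinarith [mul_nonneg c4.le (add_pos c2 c3).le]
    have b11 : Δ < 1 / 2 := by
      have c1 : min 1 ‖U j - U i‖ / V i ^ 2 ≤ 1 / yy li ^ 4 := by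
        have e : yy li ^ 4 = (yy li ^ 2) ^ 2 := by ring
        rw [e]
        gcongr
        exact min_le_left _ _
      have c2 : d i ≤ 1 / yy li ^ 4 := hdle i
      have c3 : d j ≤ 1 / yy li ^ 4 := (hdle j).trans (by
        exact one_div_le_one_div_of_le (by positivity) (by gcongr))
      have c4 : Δ ≤ B0 * (3 * (1 / yy li ^ 4)) := by
        rw [hΔ]
        refine mul_le_mul_of_nonneg_left ?_ (by linarith)
        show d i + d j + min 1 ‖U j - U i‖ / V i ^ 2 ≤ _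
        linarith
      refine lt_of_le_of_lt c4 ?_
      have c5 := g5 li hli
      have c6 : yy li ≤ yy li ^ 4 := le_self_pow₀ (yy_one_le li) (by norm_num)
      have e : B0 * (3 * (1 / yy li ^ 4)) = (3 * B0) / yy li ^ 4 := by ring
      rw [e, div_lt_iff₀ (by positivity)]
      linarith
    have hΔ'0 : 0 ≤ Δ' := (abs_nonneg _).trans (hcol' 0)
    have hΔ'1 : Δ' ≤ MM * Δ' := le_mul_of_one_le_left hΔ'0 hMM1
    obtain ⟨t1, t2⟩ := near_int Λ hΛ0 hΛ hcol' (lt_of_le_of_lt b10 b11) s1 s2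
    exact s3 (a 0 - b 0) ⟨t2.trans b10, t1.trans (hΔ'1.trans b10)⟩
  have hbdg : ∀ (ch : ℝ → ℝ) (CC : ℝ), CC ≤ K → (∀ (g F : ℝ → Fin (r + 2) → ℝ) (d V ρ : ℝ), 0 < d → d ≤ 1 →
      1 ≤ V → 0 ≤ ρ → (∀ i, ContDiff ℝ ∞ (fun s => g s i)) → (∀ i, Cls 1 V (Cg * V) (deriv fun s => g s i)) →
      (∀ i, Cls 2 V ρ (fun s => F s i)) →
      ContDiff ℝ ∞ (Hg ch g F d) ∧ ∀ (i : ℕ), i ≤ 2 → ∀ q : Z (r + 2),
        ‖iteratedFDeriv ℝ i (Hg ch g F d) q‖ ≤ CC * ρ * d * (V / d) ^ 2) →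
      ∀ l, l0 ≤ l → ∀ j ∈ Finset.Ico (2 ^ l) (2 ^ (l + 1)),
      ContDiff ℝ ∞ (Hg ch (G j) (Fo D (G j)) (d j)) ∧ ∀ i ≤ 2, ∀ q,
        ‖iteratedFDeriv ℝ i (Hg ch (G j) (Fo D (G j)) (d j)) q‖ ≤ BB l := by
    intro ch CC hCC hh l hl j hj
    have hg := hgm l hl j hj
    have hy := yy_pos l
    have hρn : 0 ≤ Cg * (‖Λ (A j)‖ + 1 / (yy l ^ 2) ^ 28) := by positivity
    obtain ⟨u1, u2⟩ := hh (G j) (Fo D (G j)) (d j) (yy l ^ 2) (Cg * (‖Λ (A j)‖ + 1 / (yy l ^ 2) ^ 28)) (hd0 j)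
      ((hdle j).trans (hyi4 _)) (hyy1 l) hρn (fun i => (hg i).1)
      (fun i => ⟨(hg i).2.1.1, fun k hk => (hg i).2.1.2 k (by omega)⟩)
      (fun i => (hg i).2.2.1)
    refine ⟨u1, fun i hi q => (u2 i hi q).trans ?_⟩
    have e : d j = rd c2 l (V j) := by simp only [hd, log_block hj]
    have h1 := pot_le hCp1 hp hc2 hCL0.le (hΛA1 l hl j hj) (hΛA2 l hl j hj)
    rw [← e] at h1
    have hdj := hd0 j
    have h2 : 0 ≤ (‖Λ (A j)‖ + 1 / (yy l ^ 2) ^ 28) * d j * (yy l ^ 2 / d j) ^ 2 := by positivity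
    calc CC * (Cg * (‖Λ (A j)‖ + 1 / (yy l ^ 2) ^ 28)) * d j * (yy l ^ 2 / d j) ^ 2
        = CC * Cg * ((‖Λ (A j)‖ + 1 / (yy l ^ 2) ^ 28) * d j * (yy l ^ 2 / d j) ^ 2) := by ring
      _ ≤ K * Cg * ((‖Λ (A j)‖ + 1 / (yy l ^ 2) ^ 28) * d j * (yy l ^ 2 / d j) ^ 2) := by gcongr
      _ ≤ K * Cg * (128 * (CL + 1) * Cp / c2 * (1 / yy l)) :=
        mul_le_mul_of_nonneg_left h1 (by positivity)
      _ = BB l := by simp only [hBBd, hCb]; ring
  obtain ⟨F, f1, f2, f3, f4⟩ := engine hf hPer hSum D G d l0 BB ε hGs hglue hd0 hdisj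
    (hbdg chA CA (le_max_left _ _) hBA) (hbdg chB CB (le_max_right _ _) hBB) hBB0 hBBs hl01
  have hj0 : (1 : ℝ) ≤ (2 : ℝ) ^ l0 := one_le_pow₀ (by norm_num)
  have hpos : ∀ t : ℝ, 0 ≤ t → 2 ^ l0 ≤ ⌊t + 2 ^ l0⌋₊ ∧ t + 2 ^ l0 - ⌊t + 2 ^ l0⌋₊ = Int.fract t := by
    intro t ht
    constructor
    · exact Nat.le_floor (by push_cast; linarith)
    · have h1 : ((⌊t + 2 ^ l0⌋₊ : ℕ) : ℝ) = (⌊t + 2 ^ l0⌋ : ℤ) := by
        rw [natCast_floor_eq_intCast_floor (by positivity)]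
      rw [h1]
      have h2 : t + 2 ^ l0 - (⌊t + 2 ^ l0⌋ : ℤ) = Int.fract (t + ((2 ^ l0 : ℕ) : ℝ)) := by
        push_cast
        rfl
      rw [h2, Int.fract_add_natCast]
  have hder : ∀ t : ℝ, 0 ≤ t →
      HasDerivAt (fun t => pathG G (t + 2 ^ l0)) (fun i => deriv (fun s => G ⌊t + 2 ^ l0⌋₊ s i) (Int.fract t)) t ∧
      HasDerivAt (deriv fun t => pathG G (t + 2 ^ l0))
        (fun i => deriv (deriv fun s => G ⌊t + 2 ^ l0⌋₊ s i) (Int.fract t)) t := by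
    intro t ht
    have hT : 1 ≤ t + 2 ^ l0 := by linarith
    obtain ⟨h1, h2⟩ := pathG_hasDerivAt hglue hT (hGs _ (hpos t ht).1)
    rw [(hpos t ht).2] at h1 h2
    refine ⟨h1.comp_add_const t ((2 : ℝ) ^ l0), ?_⟩
    have e : (deriv (fun t => pathG G (t + 2 ^ l0))) = fun x => deriv (pathG G) (x + 2 ^ l0) := by
      funext x
      exact deriv_comp_add_const (f := pathG G) ((2 : ℝ) ^ l0) x
    rw [e]
    exact h2.comp_add_const t ((2 : ℝ) ^ l0)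
  -- the velocity
  have hvel : ∀ t : ℝ, 0 ≤ t → yy (Nat.log 2 ⌊t + 2 ^ l0⌋₊) ^ 2 / 2 ≤ ‖deriv (fun t => pathG G (t + 2 ^ l0)) t‖ := by
    intro t ht
    rw [(hder t ht).1.deriv]
    have hjm := (hpos t ht).1
    set j := ⌊t + 2 ^ l0⌋₊ with hj
    obtain ⟨hl, hjI⟩ := mem_block hjm
    set l := Nat.log 2 j with hld
    have hc := (hgm l hl j hjI 0).2.2.2 (Int.fract t) (Int.fract_nonneg t) (Int.fract_lt_one t).le
    have htp : 0 ≤ tp (Int.fract t) := by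
      obtain ⟨-, -, -, -, -, -, h01, -⟩ := hf
      exact (h01 _).1
    refine le_trans ?_ (norm_le_pi_norm _ 0)
    refine le_trans ?_ (le_abs_self _)
    have h1 := (abs_le.1 hc).1
    rw [hΛ0, hΛ0, hU0] at h1
    have h2 := hVS.lo l hl j hjI
    have h3 := mul_nonneg htp (hA0 j)
    have hy := yy_pos l
    have hy1 := yy_one_le l
    have h4 : Cg / yy l ^ 2 ≤ yy l ^ 2 / 2 := by
      rw [div_le_iff₀ (by positivity)]
      have h5 := g6 l hl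
      have h6 : yy l ≤ yy l ^ 4 := le_self_pow₀ hy1 (by norm_num)
      have h7 : yy l ^ 2 / 2 * yy l ^ 2 = yy l ^ 4 / 2 := by ring
      rw [h7]
      linarith
    show yy l ^ 2 / 2 ≤ deriv (fun s => G j s 0) (Int.fract t)
    linarith
  have hfast : ∀ t : ℝ, 0 ≤ t → Vmin < ‖deriv (fun t => pathG G (t + 2 ^ l0)) t‖ := by
    intro t ht
    refine lt_of_lt_of_le ?_ (hvel t ht)
    have hl := (mem_block (hpos t ht).1).1
    have h1 := g7 _ hl
    have h2 := hy2 (Nat.log 2 ⌊t + 2 ^ l0⌋₊)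
    have h3 := le_abs_self Vmin
    linarith
  refine ⟨F, fun t => pathG G (t + 2 ^ l0), f1, f2, f3, ⟨(2 : ℝ) ^ (-(1 / 25 : ℝ)) / 2, by positivity,
    fun t ht => ?_⟩, hfast, ?_⟩
  · refine le_trans ?_ (hvel t ht)
    set j := ⌊t + 2 ^ l0⌋₊ with hj
    obtain ⟨hl, hjI⟩ := mem_block (hpos t ht).1
    rw [← hj] at hl hjI
    set l := Nat.log 2 j with hld
    have n2 : t ≤ 2 ^ (l + 1) := by
      have h1 : t + 2 ^ l0 < j + 1 := Nat.lt_floor_add_one _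
      have h2 : (j : ℝ) + 1 ≤ 2 ^ (l + 1) := by
        have := (Finset.mem_Ico.1 hjI).2
        exact_mod_cast this
      linarith
    have n3 : t ^ (1 / 25 : ℝ) ≤ (2 : ℝ) ^ (1 / 25 : ℝ) * yy l ^ 2 := by
      calc t ^ (1 / 25 : ℝ) ≤ ((2 : ℝ) ^ (l + 1)) ^ (1 / 25 : ℝ) := Real.rpow_le_rpow ht n2 (by norm_num)
        _ = (2 : ℝ) ^ (1 / 25 : ℝ) * yy l ^ 2 := by
          unfold yy
          rw [← Real.rpow_natCast, ← Real.rpow_natCast, ← Real.rpow_mul (by norm_num),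
            ← Real.rpow_mul (by norm_num), ← Real.rpow_add (by norm_num)]
          congr 1
          push_cast
          ring
    have n4 : (2 : ℝ) ^ (-(1 / 25 : ℝ)) * (2 : ℝ) ^ (1 / 25 : ℝ) = 1 := by
      rw [← Real.rpow_add (by norm_num)]
      norm_num
    calc (2 : ℝ) ^ (-(1 / 25 : ℝ)) / 2 * t ^ (1 / 25 : ℝ)
        ≤ (2 : ℝ) ^ (-(1 / 25 : ℝ)) / 2 * ((2 : ℝ) ^ (1 / 25 : ℝ) * yy l ^ 2) :=
          mul_le_mul_of_nonneg_left n3 (by positivity)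
      _ = ((2 : ℝ) ^ (-(1 / 25 : ℝ)) * (2 : ℝ) ^ (1 / 25 : ℝ)) * yy l ^ 2 / 2 := by ring
      _ = yy l ^ 2 / 2 := by rw [n4, one_mul]
  · intro L hLag t ht
    obtain ⟨d1, d2⟩ := hder t ht.le
    have hev : ∀ᶠ s in 𝓝 t, Vmin < ‖deriv (fun t => pathG G (t + 2 ^ l0)) s‖ := by
      filter_upwards [lt_mem_nhds ht] with s hs
      exact hfast s (le_of_lt hs)
    refine el_fast (f := fun x t => D0.val x t + F (x, t)) hLag hev d1.differentiableAt d2 ?_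
    intro i
    have hp := hpos t ht.le
    have hpath : pathG G (t + 2 ^ l0) = G ⌊t + 2 ^ l0⌋₊ (Int.fract t) := by
      show G ⌊t + 2 ^ l0⌋₊ (t + 2 ^ l0 - ⌊t + 2 ^ l0⌋₊) = _
      rw [hp.2]
    simp only [hpath]
    have hjm := hp.1
    set j := ⌊t + 2 ^ l0⌋₊ with hj
    set s := Int.fract t with hs
    have g1 : HasDerivAt (fun u => D0.val (Function.update (G j s) i u) t) (D.grad (G j s) t i) (G j s i) := by
      have e : (fun u => D0.val (Function.update (G j s) i u) t) =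
          fun u => D.val (Function.update (G j s) i u) t + g t := by
        funext u; exact hval _ _
      rw [e]
      exact (val_hasDerivAt D (G j s) t i).add_const _
    have g2 : D.grad (G j s) t i = D.grad (G j s) s i := by
      have := grad_time D (G j s) s ⌊t⌋ i
      rw [← this]
      congr 1
      rw [hs]
      have := Int.floor_add_fract t
      linarith
    have g3 : HasDerivAt (fun u => F (Function.update (G j s) i u, t)) (Fo D (G j) s i) (G j s i) := by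
      have h1 : HasFDerivAt F (fderiv ℝ F (G j s, t)) (Function.update (G j s) i (G j s i), t) := by
        rw [Function.update_eq_self]
        exact (f1.differentiable (by norm_num) _).hasFDerivAt
      have h2 := h1.comp_hasDerivAt (G j s i) (hasDerivAt_upd (G j s) i t (G j s i))
      rw [f4 j hjm t i] at h2
      exact h2
    refine (g1.add g3).congr_deriv ?_
    rw [g2]
    simp only [Fo]
    ring

end Pool.Agent.J6H59.AD
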