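import Pool.Agent.J6H70.AD.Stm5
import Pool.Agent.N980.TL.Main2

/-!
# Preparations for the main theorem
-/

set_option autoImplicit false

open Set Filter Topology MeasureTheory
open scoped ContDiff

noncomputable section

namespace Pool.Agent.J6H59.AD

open Pool.Agent.N980.TL Pool.Agent.J6H70.AD

/-! ### the scale `yy` -/

theorem yy_pos (l : ℕ) : 0 < yy l := by unfold yy; positivity

theorem yy_one_le (l : ℕ) : 1 ≤ yy l := Real.one_le_rpow (by norm_num) (by positivity)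

theorem yy_mono {l l' : ℕ} (h : l ≤ l') : yy l ≤ yy l' := by
  unfold yy
  refine Real.rpow_le_rpow_of_exponent_le (by norm_num) ?_
  have : (l : ℝ) ≤ l' := by exact_mod_cast h
  linarith

theorem yy_pow (l : ℕ) : yy l ^ 50 = 2 ^ l := by
  unfold yy
  rw [← Real.rpow_natCast, ← Real.rpow_mul (by norm_num), ← Real.rpow_natCast]
  congr 1
  push_cast
  ring

theorem yy_eq (l : ℕ) : yy l = yy 1 ^ l := by
  unfold yy
  rw [← Real.rpow_natCast, ← Real.rpow_mul (by norm_num)]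
  congr 1
  push_cast
  ring

theorem yy_one_lt : 1 < yy 1 := by
  unfold yy
  exact Real.one_lt_rpow (by norm_num) (by norm_num)

theorem yy_tendsto : Tendsto yy atTop atTop := by
  have h : yy = fun l => yy 1 ^ l := funext yy_eq
  rw [h]
  exact tendsto_pow_atTop_atTop_of_one_lt yy_one_lt

theorem yy_inv_summable : Summable (fun l => 1 / yy l) := by
  have h : (fun l => 1 / yy l) = fun l => (1 / yy 1) ^ l := by
    funext l
    rw [yy_eq, one_div_pow]
  rw [h]
  refine summable_geometric_of_lt_one (by have := yy_pos 1; positivity) ?_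
  rw [div_lt_one (yy_pos 1)]
  exact yy_one_lt

/-- a polynomial bound -/
theorem yy_poly : ∃ C : ℝ, 1 ≤ C ∧ ∀ l : ℕ, ((l : ℝ) + 3) ^ 2 ≤ C * yy l := by
  have h1 : Tendsto (fun l : ℕ => (l : ℝ) ^ 2 * (1 / yy 1) ^ l) atTop (𝓝 0) := by
    refine tendsto_pow_const_mul_const_pow_of_abs_lt_one 2 ?_
    rw [abs_of_pos (by have := yy_pos 1; positivity), div_lt_one (yy_pos 1)]
    exact yy_one_lt
  obtain ⟨B, hB⟩ := h1.bddAbove_range
  have hB' : ∀ l : ℕ, (l : ℝ) ^ 2 ≤ B * yy l := by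
    intro l
    have h2 : (l : ℝ) ^ 2 * (1 / yy 1) ^ l ≤ B := hB ⟨l, rfl⟩
    have hy := yy_pos l
    have h3 : (l : ℝ) ^ 2 * (1 / yy 1) ^ l = (l : ℝ) ^ 2 / yy l := by
      rw [yy_eq l, one_div_pow]; ring
    rw [h3, div_le_iff₀ hy] at h2
    exact h2
  have hB0 : 0 ≤ B := by
    have := hB' 0
    have hy := yy_pos 0
    simp only [Nat.cast_zero, ne_eq, OfNat.ofNat_ne_zero, not_false_eq_true, zero_pow] at this
    exact nonneg_of_mul_nonneg_left this hy
  refine ⟨2 * B + 18, by linarith, fun l => ?_⟩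
  have h4 := hB' l
  have h5 := yy_one_le l
  nlinarith [sq_nonneg ((l : ℝ) - 3)]

/-! ### digits -/

theorem digits {S : ℕ} : ∀ (n : ℕ) (k : Fin n → ℤ), (∀ i, |k i| ≤ S) →
    ∑ i : Fin n, k i * ((2 * S + 1 : ℕ) : ℤ) ^ (i : ℕ) = 0 → k = 0 := by
  intro n
  induction n with
  | zero =>
    intro k _ _
    funext i
    exact i.elim0
  | succ n ih =>
    intro k hk h
    rw [Fin.sum_univ_succ] at h
    have e : ∑ i : Fin n, k i.succ * ((2 * S + 1 : ℕ) : ℤ) ^ ((i.succ : Fin (n + 1)) : ℕ) =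
        ((2 * S + 1 : ℕ) : ℤ) * ∑ i : Fin n, k i.succ * ((2 * S + 1 : ℕ) : ℤ) ^ (i : ℕ) := by
      rw [Finset.mul_sum]
      refine Finset.sum_congr rfl fun i _ => ?_
      rw [Fin.val_succ, pow_succ]
      ring
    rw [e] at h
    simp only [Fin.val_zero, pow_zero, mul_one] at h
    set T := ∑ i : Fin n, k i.succ * ((2 * S + 1 : ℕ) : ℤ) ^ (i : ℕ) with hT
    have h0 := abs_le.1 (hk 0)
    have hT0 : T = 0 := by
      by_contra hne
      rcases lt_or_gt_of_ne hne with h1 | h1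
      · have : T ≤ -1 := by omega
        push_cast at h
        nlinarith [h0.1, h0.2]
      · have : 1 ≤ T := by omega
        push_cast at h
        nlinarith [h0.1, h0.2]
    have hk0 : k 0 = 0 := by rw [hT0] at h; linarith
    have hrest := ih (fun i => k i.succ) (fun i => hk i.succ) hT0
    funext i
    refine Fin.cases hk0 (fun i => ?_) i
    exact congrFun hrest i

theorem nrs_of {r S : ℕ} (Λ : (Fin (r + 2) → ℝ) →ₗ[ℝ] (Fin (r + 2) → ℝ))
    (hΛ0 : ∀ i : Fin (r + 2), Λ (Pi.single 0 1) i = ((2 * S + 1 : ℕ) : ℝ) ^ (i : ℕ)) {CL : ℝ}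
    (hCL : ∀ z, ‖Λ z‖ ≤ CL * ‖z‖) (W0 K : ℝ) (hW0 : 0 ≤ W0) (hK : 0 ≤ K) (hCL0 : 0 ≤ CL) :
    ∃ V1 : ℝ, ∀ (V : ℝ) (z : E (r + 2)), V1 ≤ V → 1 ≤ V → V ≤ z 0 → z 0 ≤ K * V →
      (∀ i, i ≠ 0 → |z i| ≤ W0) →
      NRS S (1 / 2) (CL * (K + W0) + 2) V (Λ z) ∧ ‖Λ z‖ ≤ CL * (K + W0) * V := by
  refine ⟨2 * ((r + 2) * (S * (CL * W0)) + S), fun V z hV hV1 hz0 hz1 hz => ?_⟩
  have hz00 : 0 ≤ z 0 := by linarith
  have hnz : ‖z‖ ≤ (K + W0) * V := by
    rw [pi_norm_le_iff_of_nonneg (by positivity)]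
    intro i
    rw [Real.norm_eq_abs]
    by_cases hi : i = 0
    · subst hi
      rw [abs_of_nonneg hz00]
      nlinarith
    · refine (hz i hi).trans ?_
      nlinarith [mul_nonneg hK (by linarith : (0 : ℝ) ≤ V)]
  have hnΛ : ‖Λ z‖ ≤ CL * (K + W0) * V := by
    refine (hCL z).trans ?_
    rw [mul_assoc]
    exact mul_le_mul_of_nonneg_left hnz hCL0
  refine ⟨⟨fun k m hk hkS hmS => ?_, ?_⟩, hnΛ⟩
  · set z' : E (r + 2) := z - z 0 • Pi.single 0 1 with hz'
    have e1 : z = z 0 • (Pi.single 0 1 : E (r + 2)) + z' := by rw [hz']; abel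
    have e2 : ∀ i, Λ z i = z 0 * ((2 * S + 1 : ℕ) : ℝ) ^ (i : ℕ) + Λ z' i := by
      intro i
      conv_lhs => rw [e1]
      rw [map_add, map_smul]
      show z 0 * Λ (Pi.single 0 1) i + Λ z' i = _
      rw [hΛ0]
    have hn : ‖z'‖ ≤ W0 := by
      rw [pi_norm_le_iff_of_nonneg hW0]
      intro i
      rw [Real.norm_eq_abs]
      by_cases hi : i = 0
      · subst hi; simp [hz', hW0]
      · have : z' i = z i := by
          rw [hz']
          show z i - z 0 * (Pi.single 0 1 : E (r + 2)) i = z i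
          rw [Pi.single_eq_of_ne hi]; ring
        rw [this]; exact hz i hi
    set κ : ℤ := ∑ i : Fin (r + 2), k i * ((2 * S + 1 : ℕ) : ℤ) ^ (i : ℕ) with hκ
    have hκ0 : κ ≠ 0 := fun h => hk (digits (r + 2) k hkS h)
    have hκ1 : (1 : ℝ) ≤ |(κ : ℝ)| := by
      have := Int.one_le_abs hκ0
      exact_mod_cast this
    have e3 : (∑ i, (k i : ℝ) * Λ z i) = κ * z 0 + ∑ i, (k i : ℝ) * Λ z' i := by
      have : (κ : ℝ) = ∑ i : Fin (r + 2), (k i : ℝ) * ((2 * S + 1 : ℕ) : ℝ) ^ (i : ℕ) := by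
        rw [hκ]; push_cast; rfl
      rw [this]
      simp only [e2, mul_add, Finset.sum_add_distrib, Finset.sum_mul]
      congr 1
      exact Finset.sum_congr rfl fun i _ => by ring
    have hn' : ∀ i, |Λ z' i| ≤ CL * W0 := by
      intro i
      have h1 := norm_le_pi_norm (Λ z') i
      rw [Real.norm_eq_abs] at h1
      exact h1.trans ((hCL z').trans (mul_le_mul_of_nonneg_left hn hCL0))
    have e4 : |∑ i, (k i : ℝ) * Λ z' i| ≤ (r + 2) * (S * (CL * W0)) := by
      refine (Finset.abs_sum_le_sum_abs _ _).trans ?_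
      have : ∀ i ∈ (Finset.univ : Finset (Fin (r + 2))), |(k i : ℝ) * Λ z' i| ≤ S * (CL * W0) := by
        intro i _
        rw [abs_mul]
        refine mul_le_mul ?_ (hn' i) (abs_nonneg _) (by positivity)
        have := hkS i
        exact_mod_cast this
      refine (Finset.sum_le_card_nsmul _ _ _ this).trans ?_
      rw [Finset.card_univ, Fintype.card_fin, nsmul_eq_mul]
      push_cast
      exact le_rfl
    have e5 : |(m : ℝ)| ≤ S := by exact_mod_cast hmS
    have e6 : |(κ : ℝ) * z 0| ≥ z 0 := by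
      rw [abs_mul, abs_of_nonneg hz00]
      exact le_mul_of_one_le_left hz00 hκ1
    rw [e3]
    have e7 : |(κ : ℝ) * z 0| ≤ |(κ : ℝ) * z 0 + ∑ i, (k i : ℝ) * Λ z' i + m| +
        |∑ i, (k i : ℝ) * Λ z' i| + |(m : ℝ)| := by
      have e : (κ : ℝ) * z 0 = ((κ : ℝ) * z 0 + ∑ i, (k i : ℝ) * Λ z' i + m) -
        (∑ i, (k i : ℝ) * Λ z' i) - m := by ring
      conv_lhs => rw [e]
      exact (abs_sub _ _).trans (add_le_add (abs_sub _ _) le_rfl)
    linarith
  · nlinarith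

/-! ### gluing -/

theorem gm_glue (hf : S_FN) {n : ℕ} (X : (Fin n → ℝ) → (Fin n → ℝ) → ℝ → Fin n → ℝ)
    (P v A A' : Fin n → ℝ) {s : ℝ} (h0 : 3 / 4 ≤ s) (h1 : s ≤ 5 / 4) :
    gm X P v A s = gm X (P + v + kap • A) (v + A) A' (s - 1) := by
  obtain ⟨-, -, -, -, -, -, -, hlow, hhigh, -⟩ := hf
  obtain ⟨a1, a2, -⟩ := hhigh s h0
  obtain ⟨b1, b2, -⟩ := hlow (s - 1) (by linarith)
  funext i
  unfold gm
  rw [a1, a2, b1, b2]
  simp only [Pi.add_apply, Pi.smul_apply, smul_eq_mul]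
  ring

theorem lam_pos' {r : ℕ} (Λ : (Fin (r + 2) → ℝ) →ₗ[ℝ] (Fin (r + 2) → ℝ)) (P U A : E (r + 2)) (s : ℝ) :
    pos (Λ P) (Λ U) (Λ A) s = Λ (pos P U A s) := by
  have : pos P U A s = P + s • U + th s • A := by
    funext i; simp [pos]
  rw [this, map_add, map_add, map_smul, map_smul]
  funext i
  simp [pos]

/-! ### Euler-Lagrange -/

theorem el_fast {n : ℕ} {Vmin : ℝ} {L : (Fin n → ℝ) → (Fin n → ℝ) → ℝ → ℝ}
    {f : (Fin n → ℝ) → ℝ → ℝ} {γ : ℝ → Fin n → ℝ} {t : ℝ} {a : Fin n → ℝ}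
    (hL : ∀ x v t, Vmin ≤ ‖v‖ → L x v t = (∑ i, v i ^ 2) / 2)
    (hR : ∀ᶠ s in 𝓝 t, Vmin < ‖deriv γ s‖) (hd : DifferentiableAt ℝ γ t)
    (h2 : HasDerivAt (deriv γ) a t)
    (hf : ∀ i, HasDerivAt (fun u => f (Function.update (γ t) i u) t) (a i) (γ t i)) :
    EulerLagrange (fun x v t => L x v t + f x t) γ t := by
  refine ⟨hd, fun i => ?_⟩
  have e1 : (fun s => dv (fun x v t => L x v t + f x t) i (γ s) (deriv γ s) s) =ᶠ[𝓝 t]
      fun s => deriv γ s i := by
    filter_upwards [hR] with s hin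
    simp only [dv]
    have hc : Tendsto (fun u : ℝ => Function.update (deriv γ s) i u) (𝓝 (deriv γ s i)) (𝓝 (deriv γ s)) := by
      have h0 : Continuous (fun u : ℝ => Function.update (deriv γ s) i u) := continuous_const.update i continuous_id
      have := h0.tendsto (deriv γ s i)
      rwa [Function.update_eq_self] at this
    have hev : (fun u => L (γ s) (Function.update (deriv γ s) i u) s + f (γ s) s) =ᶠ[𝓝 (deriv γ s i)]
        fun u => (u ^ 2 + ∑ m ∈ Finset.univ.erase i, (deriv γ s m) ^ 2) / 2 + f (γ s) s := by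
      have hn : ∀ᶠ u in 𝓝 (deriv γ s i), Vmin < ‖Function.update (deriv γ s) i u‖ :=
        (hc.norm).eventually_const_lt hin
      filter_upwards [hn] with u hu
      rw [hL _ _ _ hu.le, ← Finset.add_sum_erase _ _ (Finset.mem_univ i)]
      simp only [Function.update_self]
      congr 3
      refine Finset.sum_congr rfl fun m hm => ?_
      rw [Function.update_of_ne (Finset.ne_of_mem_erase hm)]
    rw [hev.deriv_eq]
    have h3 := ((((hasDerivAt_pow 2 (deriv γ s i)).add_const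
      (∑ m ∈ Finset.univ.erase i, (deriv γ s m) ^ 2)).div_const 2).add_const (f (γ s) s)).deriv
    rw [h3]
    simp
  have e2 : dx (fun x v t => L x v t + f x t) i (γ t) (deriv γ t) t = a i := by
    simp only [dx]
    have hin := hR.self_of_nhds
    have hev : (fun u => L (Function.update (γ t) i u) (deriv γ t) t + f (Function.update (γ t) i u) t)
        = fun u => (∑ m, deriv γ t m ^ 2) / 2 + f (Function.update (γ t) i u) t := by
      funext u
      rw [hL _ _ _ hin.le]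
    rw [hev]
    exact ((hf i).const_add _).deriv
  rw [e2]
  have h4 : HasDerivAt (fun s => deriv γ s i) (a i) t := (hasDerivAt_pi.1 h2) i
  exact h4.congr_of_eventuallyEq e1

/-! ### distances to the integers -/

theorem sin_dist {y d : ℝ} (h : |Real.sin (Real.pi * y)| ≤ d) : ∃ a : ℤ, |y - a| ≤ d / 2 := by
  refine ⟨round y, ?_⟩
  have h1 := abs_sub_round y
  have hpi := Real.pi_pos
  have h2 : |Real.pi * (y - round y)| ≤ Real.pi / 2 := by
    rw [abs_mul, abs_of_pos hpi]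
    nlinarith
  have h3 := Real.mul_abs_le_abs_sin h2
  have h4 : |Real.sin (Real.pi * (y - round y))| = |Real.sin (Real.pi * y)| := by
    have e : Real.pi * (y - round y) = Real.pi * y - round y * Real.pi := by ring
    rw [e, Real.sin_sub_int_mul_pi, abs_mul]
    have : |((-1 : ℝ)) ^ (round y)| = 1 := by
      rw [abs_zpow, abs_neg, abs_one, one_zpow]
    rw [this, one_mul]
  rw [h4, abs_mul, abs_of_pos hpi] at h3
  have h5 : 2 / Real.pi * (Real.pi * |y - round y|) = 2 * |y - round y| := by field_simp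
  rw [h5] at h3
  linarith

theorem near_int {r M : ℕ} (Λ : (Fin (r + 2) → ℝ) →ₗ[ℝ] (Fin (r + 2) → ℝ))
    (hΛ0 : ∀ z, Λ z 0 = z 0)
    (hΛ : ∀ z (i : Fin (r + 1)), (M : ℝ) * Λ z i.castSucc - Λ z i.succ = z i.succ)
    {z : E (r + 2)} {a : Fin (r + 2) → ℤ} {Δ : ℝ} (h : ∀ m, |Λ z m - a m| ≤ Δ)
    (hΔ : (M + 1) * Δ < 1 / 2) (hz0 : 0 ≤ z 1) (hz1 : z 1 ≤ 1 / 2) :
    |z 0 - a 0| ≤ Δ ∧ z 1 ≤ (M + 1) * Δ := by
  have h0 := h 0
  rw [hΛ0] at h0
  refine ⟨h0, ?_⟩
  have hΔ0 : 0 ≤ Δ := (abs_nonneg _).trans h0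
  have e1 := hΛ z 0
  have e2 : (Fin.castSucc (0 : Fin (r + 1))) = 0 := rfl
  have e3 : (Fin.succ (0 : Fin (r + 1))) = 1 := rfl
  rw [e2, e3, hΛ0] at e1
  have h1 := h 1
  have hM : (0 : ℝ) ≤ M := by positivity
  have h2 : |z 1 - ((M * a 0 - a 1 : ℤ) : ℝ)| ≤ (M + 1) * Δ := by
    have e4 : z 1 - ((M * a 0 - a 1 : ℤ) : ℝ) = M * (z 0 - a 0) - (Λ z 1 - a 1) := by
      push_cast
      rw [← e1]; ring
    rw [e4]
    refine (abs_sub _ _).trans ?_
    rw [abs_mul, abs_of_nonneg hM]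
    nlinarith
  set b : ℤ := M * a 0 - a 1 with hb
  have h3 := abs_le.1 h2
  have hb0 : b = 0 := by
    have h4 : (b : ℝ) < 1 := by linarith [h3.1]
    have h5 : (-1 : ℝ) < b := by linarith [h3.2]
    have h4' : b < 1 := by exact_mod_cast h4
    have h5' : -1 < b := by exact_mod_cast h5
    omega
  rw [hb0] at h3
  have := h3.2
  push_cast at this
  linarith

end Pool.Agent.J6H59.AD
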